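import Mathlib
import Pool.Agent.Lib.MP_2b57cc_co.Final

set_option autoImplicit false

/-!
MP_2b57cc_co, Q1: the induced saturation number of every disjoint union of chains is at most
linear in `n`.
-/

namespace Pool.Agent.Results.MP_2b57cc_co.ChainUnionsLinear

/-- The family `F` of subsets of an `n`-element set contains an induced copy of the poset `P`:
there is an injection `b` of `P` into `F` with `p ≤ q` if and only if `b p ⊆ b q`. -/
def HasInducedCopy (P : Type) [PartialOrder P] {n : ℕ} (F : Finset (Finset (Fin n))) : Prop :=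
  ∃ b : P → Finset (Fin n), Function.Injective b ∧ (∀ p, b p ∈ F) ∧
    ∀ p q, p ≤ q ↔ b p ⊆ b q

/-- The family `F` is induced `P`-saturated: it contains no induced copy of `P`, but adding any
subset `G` which is not in `F` creates one. -/
def IsInducedSaturated (P : Type) [PartialOrder P] {n : ℕ} (F : Finset (Finset (Fin n))) : Prop :=
  ¬ HasInducedCopy P F ∧ ∀ G : Finset (Fin n), G ∉ F → HasInducedCopy P (insert G F)

/-- The induced saturation number: the minimum size of an induced `P`-saturated family of subsets
of an `n`-element set. -/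
noncomputable def satStar (n : ℕ) (P : Type) [PartialOrder P] : ℕ :=
  sInf {s : ℕ | ∃ F : Finset (Finset (Fin n)), IsInducedSaturated P F ∧ F.card = s}

/-- The disjoint union of chains with `i j` elements (`j < m`), elements of different chains
being incomparable (Mathlib's order on a sigma type). -/
abbrev ChainUnion {m : ℕ} (i : Fin m → ℕ) : Type := Σ j : Fin m, Fin (i j)

open Pool.Agent.Lib.MP_2b57cc_co in
theorem hasInducedCopy_iff (P : Type) [PartialOrder P] {n : ℕ} (F : Finset (Finset (Fin n))) :
    HasInducedCopy P F ↔ Copy P (Finset (Fin n)) (F : Set (Finset (Fin n))) := by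
  constructor
  · rintro ⟨b, -, hb, hbb⟩
    exact ⟨b, hb, hbb⟩
  · rintro ⟨b, hb, hbb⟩
    refine ⟨b, ?_, hb, hbb⟩
    intro p q hpq
    exact le_antisymm ((hbb p q).mpr hpq.le) ((hbb q p).mpr hpq.ge)

/-- **Q1, affirmative answer.** For all chain lengths `i 0, ..., i (m - 1) ≥ 1` (`m ≥ 1`) there is
a constant `C` such that for every `n ≥ 1` induced saturated families for the disjoint union of
the chains exist and the smallest one has at most `C * n` members. -/
theorem result (m : ℕ) (i : Fin m → ℕ) (hm : 1 ≤ m) (hi : ∀ j, 1 ≤ i j) :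
    ∃ C : ℕ, ∀ n : ℕ, 1 ≤ n →
      (∃ F : Finset (Finset (Fin n)), IsInducedSaturated (ChainUnion i) F) ∧
        satStar n (ChainUnion i) ≤ C * n := by
  classical
  obtain ⟨C, hC⟩ := Pool.Agent.Lib.MP_2b57cc_co.linear_bound m hm i hi
  refine ⟨C, fun n hn => ?_⟩
  obtain ⟨F, h1, h2, h3⟩ := hC n hn
  have hF : IsInducedSaturated (ChainUnion i) F := by
    refine ⟨fun h => h1 ((hasInducedCopy_iff _ _).mp h), fun G hG => ?_⟩
    rw [hasInducedCopy_iff]
    have := h2 G hG
    convert this
  have h4 : satStar n (ChainUnion i) ≤ F.card := Nat.sInf_le ⟨F, hF, rfl⟩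
  exact ⟨⟨F, hF⟩, h4.trans h3⟩

end Pool.Agent.Results.MP_2b57cc_co.ChainUnionsLinear
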